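import Mathlib
import Pool.Agent.H492R2.ErdosPow5

/-!
# Erdős inequalities for sums of consecutive `n`-th powers (Q1)

Write `r = (1 - 1/m)^n > 1/2` and `h = 1/m`.

* First inequality: `2 (M-1)^n < M^n` with `M = m - 1` forces `2 k^n < (k+1)^n` for all `k < M`, and
  an induction gives `1^n + ... + k^n < (k+1)^n`.
* Second inequality: it suffices to treat the largest `n` with `r > 1/2`.  There
  `(1+h)^n < 2 (1-h^2)^n`, and `(1-kh)^n ≥ 2^{-k} (1-δ_k)^n` with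
  `δ_k = (k^2-k)/2 h^2 + (k^3-k)/3 h^3 + O(k^4 h^4)`.  Summing third order Bonferroni bounds over
  `k ≤ m/4`, the difference is at least `4 τ (3 τ - 2) h^2 + O(h^3)` with `τ = n h → log 2 > 2/3`,
  which is positive for `m ≥ 800`; the cases `m < 800` are checked by the kernel.
-/

set_option autoImplicit false

namespace Pool.Agent.Results.MP_91e459_nt.ErdosQ1

/-- `S n k = 1^n + 2^n + ... + k^n`, with `S n 0 = 0`. -/
def S (n k : ℕ) : ℕ := ∑ i ∈ Finset.Icc 1 k, i ^ n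

/-- The pair `(m, n)` is admissible: `n ≥ 1`, `m ≥ 2`, `(1 - 1/m)^n > 1/2` and
`(1 - 1/(m-1))^n < 1/2`. -/
def Admissible (m n : ℕ) : Prop :=
  1 ≤ n ∧ 2 ≤ m ∧ (1 - 1 / (m : ℝ)) ^ n > 1 / 2 ∧ (1 - 1 / ((m : ℝ) - 1)) ^ n < 1 / 2

/-- For every admissible pair `(m, n)`: `(m-1)^n > S_n(m-2)` and `(m+1)^n < S_n(m)`. -/
theorem result : ∀ m n : ℕ, Admissible m n →
    (m - 1) ^ n > S n (m - 2) ∧ (m + 1) ^ n < S n m := by
  rintro m n ⟨hn, hm, h1, h2⟩
  exact ⟨Pool.Agent.H492R2.ErdosPow.partA' m n hm h2,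
    Pool.Agent.H492R2.ErdosPow.partB m n hm hn h1⟩

end Pool.Agent.Results.MP_91e459_nt.ErdosQ1
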